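import Mathlib
import Pool.Agent.Helper72.SH.Scal

/-!
# The first moment
-/

set_option autoImplicit false

namespace Pool.Agent.Helper6.SH

open Real

lemma f_nonneg {t : ℝ} (ht : 0 ≤ t) : 0 ≤ t * (t - log t) := by
  rcases eq_or_lt_of_le ht with h | h
  · rw [← h]; simp
  · have := log_le_sub_one_of_pos h
    exact mul_nonneg ht (by linarith)

lemma f_le {t L : ℝ} (ht : 0 ≤ t) (htL : t ≤ L) : t * (t - log t) ≤ L ^ 2 + 1 := by
  rcases eq_or_lt_of_le ht with h | h
  · rw [← h]; simp; positivity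
  · have h1 : 1 - t⁻¹ ≤ log t := one_sub_inv_le_log_of_pos h
    have h2 : t * (1 - t⁻¹) ≤ t * log t := mul_le_mul_of_nonneg_left h1 ht
    have h3 : t * (1 - t⁻¹) = t - 1 := by field_simp
    have h4 : t * t ≤ L * L := mul_le_mul htL htL ht (by linarith)
    nlinarith

/-- Jensen with the weights `y k` -/
lemma jensen {n : ℕ} (y : Fin n → ℝ) (hy : ∀ k, 0 ≤ y k) (s : ℝ) (hs : 0 < s)
    (hsum : ∑ k, y k = s) :
    log s + (∑ k, y k * (y k - log (y k))) / s ≤ log (∑ k, exp (y k)) := by
  classical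
  -- concavity of `log` on the positive half line, weights `y k / s` over the positive ones
  set F : Finset (Fin n) := Finset.univ.filter (fun k => 0 < y k) with hF
  have hFs : ∑ k ∈ F, y k = s := by
    rw [← hsum, hF, Finset.sum_filter]
    apply Finset.sum_congr rfl
    intro k _
    split_ifs with h
    · rfl
    · linarith [hy k]
  have hFf : ∑ k ∈ F, y k * (y k - log (y k)) = ∑ k, y k * (y k - log (y k)) := by
    rw [hF, Finset.sum_filter]
    apply Finset.sum_congr rfl
    intro k _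
    split_ifs with h
    · rfl
    · have : y k = 0 := by linarith [hy k]
      rw [this]; simp
  have hpos : ∀ k ∈ F, 0 < y k := fun k hk => (Finset.mem_filter.1 hk).2
  have hj := (strictConcaveOn_log_Ioi.concaveOn).le_map_sum (t := F) (w := fun k => y k / s)
    (p := fun k => exp (y k) / y k) (fun k hk => div_nonneg (hpos k hk).le hs.le)
    (by rw [← Finset.sum_div, hFs, div_self hs.ne'])
    (fun k hk => div_pos (exp_pos _) (hpos k hk))
  simp only [smul_eq_mul] at hj
  have h1 : ∑ k ∈ F, y k / s * log (exp (y k) / y k) = (∑ k, y k * (y k - log (y k))) / s := by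
    rw [← hFf, Finset.sum_div]
    apply Finset.sum_congr rfl
    intro k hk
    rw [log_div (exp_pos _).ne' (hpos k hk).ne', log_exp]
    ring
  have h2 : ∑ k ∈ F, y k / s * (exp (y k) / y k) = (∑ k ∈ F, exp (y k)) / s := by
    rw [Finset.sum_div]
    apply Finset.sum_congr rfl
    intro k hk
    have := (hpos k hk).ne'
    field_simp
  rw [h1, h2] at hj
  have hFne : F.Nonempty := by
    by_contra h
    rw [Finset.not_nonempty_iff_eq_empty] at h
    rw [h] at hFs
    simp at hFs
    linarith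
  have hE : 0 < ∑ k ∈ F, exp (y k) := Finset.sum_pos (fun k _ => exp_pos _) hFne
  rw [log_div hE.ne' hs.ne'] at hj
  have h3 : log (∑ k ∈ F, exp (y k)) ≤ log (∑ k, exp (y k)) := by
    apply log_le_log hE
    apply Finset.sum_le_sum_of_subset_of_nonneg (Finset.subset_univ _)
    intro k _ _
    exact (exp_pos _).le
  linarith

/-- the pointwise lower bound of `log (a / n)` -/
lemma point {n : ℕ} (hn : 0 < n) (x : Fin n → ℝ) (hx : ∀ k, 0 ≤ x k) (L : ℝ) (hL : 1 ≤ L) :
    (∑ k, min (x k) L * (min (x k) L - log (min (x k) L))) / n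
      - (2 * L ^ 2 + 4) * |(∑ k, (x k - 1)) / n|
      - (2 * L ^ 2 + 4) * ((∑ k, max (x k - L) 0) / n)
      ≤ log ((∑ k, exp (min (x k) L)) / n) := by
  have hn' : (0 : ℝ) < n := by exact_mod_cast hn
  set y : Fin n → ℝ := fun k => min (x k) L with hy
  have hy0 : ∀ k, 0 ≤ y k := fun k => le_min (hx k) (by linarith)
  have hyL : ∀ k, y k ≤ L := fun k => min_le_right _ _
  set B : ℝ := (∑ k, y k * (y k - log (y k))) / n with hB
  set t : ℝ := (∑ k, max (x k - L) 0) / n with ht
  set s : ℝ := (∑ k, y k) / n with hs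
  set K : ℝ := 2 * L ^ 2 + 4 with hK
  have hB0 : 0 ≤ B := div_nonneg (Finset.sum_nonneg (fun k _ => f_nonneg (hy0 k))) hn'.le
  have hB1 : B ≤ L ^ 2 + 1 := by
    rw [hB, div_le_iff₀ hn']
    calc ∑ k, y k * (y k - log (y k)) ≤ ∑ _k : Fin n, (L ^ 2 + 1) :=
          Finset.sum_le_sum (fun k _ => f_le (hy0 k) (hyL k))
      _ = (L ^ 2 + 1) * n := by
          rw [Finset.sum_const, Finset.card_univ, Fintype.card_fin, nsmul_eq_mul]; ring
  have ht0 : 0 ≤ t := div_nonneg (Finset.sum_nonneg (fun k _ => le_max_right _ _)) hn'.le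
  have hs0 : 0 ≤ s := div_nonneg (Finset.sum_nonneg (fun k _ => hy0 k)) hn'.le
  -- the mean of `x - 1`
  have hst : (∑ k, (x k - 1)) / n = s + t - 1 := by
    have e1 : ∀ k, x k - 1 = y k + max (x k - L) 0 - 1 := by
      intro k
      have : y k = min (x k) L := rfl
      rw [this]
      rcases le_total (x k) L with h | h
      · rw [min_eq_left h, max_eq_right (by linarith)]; ring
      · rw [min_eq_right h, max_eq_left (by linarith)]; ring
    rw [Finset.sum_congr rfl (fun k _ => e1 k), Finset.sum_sub_distrib, Finset.sum_add_distrib]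
    simp only [Finset.sum_const, Finset.card_univ, Fintype.card_fin, nsmul_eq_mul, mul_one]
    rw [hs, ht]
    field_simp
  have hab : |s - 1| ≤ |(∑ k, (x k - 1)) / n| + t := by
    rw [hst]
    have : s - 1 = (s + t - 1) - t := by ring
    rw [this]
    calc |(s + t - 1) - t| ≤ |s + t - 1| + |t| := abs_sub _ _
      _ = |s + t - 1| + t := by rw [abs_of_nonneg ht0]
  have hK0 : 0 < K := by rw [hK]; positivity
  -- the logarithm is nonnegative
  have hlog0 : 0 ≤ log ((∑ k, exp (y k)) / n) := by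
    apply log_nonneg
    rw [le_div_iff₀ hn', one_mul]
    calc (n : ℝ) = ∑ _k : Fin n, (1 : ℝ) := by simp
      _ ≤ ∑ k, exp (y k) := Finset.sum_le_sum (fun k _ => one_le_exp (hy0 k))
  suffices h : B - K * |s - 1| ≤ log ((∑ k, exp (y k)) / n) by
    have := mul_le_mul_of_nonneg_left hab hK0.le
    have e : ∑ k, exp (min (x k) L) = ∑ k, exp (y k) := rfl
    rw [e]
    linarith
  by_cases h2 : 1 / 2 ≤ s ∧ s ≤ 2
  · obtain ⟨h3, h4⟩ := h2
    have hsp : 0 < s := by linarith
    have hj := jensen y hy0 (s * n) (by positivity) (by rw [hs]; field_simp)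
    have hE : 0 < ∑ k, exp (y k) := by
      apply Finset.sum_pos (fun k _ => exp_pos _)
      exact ⟨⟨0, hn⟩, Finset.mem_univ _⟩
    rw [log_div hE.ne' hn'.ne']
    rw [log_mul hsp.ne' hn'.ne'] at hj
    have e2 : (∑ k, y k * (y k - log (y k))) / (s * n) = B / s := by
      rw [hB]; field_simp
    rw [e2] at hj
    have h5 : 1 - s⁻¹ ≤ log s := one_sub_inv_le_log_of_pos hsp
    have h6 : B - K * |s - 1| ≤ (1 - s⁻¹) + B / s := by
      have h7 : (1 - s⁻¹) + B / s - B = (1 - B) * (s - 1) / s := by field_simp; ring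
      have h8 : -(K * |s - 1|) ≤ (1 - B) * (s - 1) / s := by
        rw [le_div_iff₀ hsp]
        have h9 : |1 - B| ≤ L ^ 2 + 2 := by
          rw [abs_le]; constructor <;> nlinarith
        have h10 : -(|1 - B| * |s - 1|) ≤ (1 - B) * (s - 1) := by
          rw [← abs_mul]; exact neg_abs_le _
        have h11 : |1 - B| * |s - 1| ≤ (L ^ 2 + 2) * |s - 1| :=
          mul_le_mul_of_nonneg_right h9 (abs_nonneg _)
        have h12 : (L ^ 2 + 2) * |s - 1| ≤ K * |s - 1| * s := by
          have : (L ^ 2 + 2) = K * (1 / 2) := by rw [hK]; ring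
          rw [this]
          have h13 : 0 ≤ K * |s - 1| := by positivity
          nlinarith
        linarith
      linarith
    linarith
  · have h3 : 1 / 2 ≤ |s - 1| := by
      by_contra h4
      push Not at h4
      rw [abs_lt] at h4
      exact h2 ⟨by linarith [h4.1], by linarith [h4.2]⟩
    have h4 : K * (1 / 2) ≤ K * |s - 1| := mul_le_mul_of_nonneg_left h3 hK0.le
    have h5 : K * (1 / 2) = L ^ 2 + 2 := by rw [hK]; ring
    linarith

/-- the first moment -/
theorem first {I : Type*} [Fintype I] (w : I → ℝ) (hw : ∀ i, 0 ≤ w i) (hs : ∑ i, w i = 1)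
    (n : ℕ) (hn : 0 < n) (x : I → Fin n → ℝ) (hx : ∀ i k, 0 ≤ x i k) (L : ℝ) (hL : 1 ≤ L)
    (K : ℝ) (hK : K = 2 * L ^ 2 + 4) (hKn : K / n ≤ 1 / 6) (Bb tb ub : ℝ)
    (hB : Bb = ∑ i, w i *
      ((∑ k, min (x i k) L * (min (x i k) L - log (min (x i k) L))) / n))
    (ht : tb = ∑ i, w i * ((∑ k, max (x i k - L) 0) / n))
    (hu : ub = ∑ i, w i * ((∑ k, (x i k - 1)) / 2)) :
    sqrt n * exp (-(n / 2)) * (exp ((Bb - K * tb) / 2) *
        (1 - ub - sqrt (K / n) - 4 * (K / n) * (L ^ 2 + 1 + K * tb)))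
      ≤ ∑ i, w i * (exp (-(∑ k, x i k) / 2) * sqrt (∑ k, exp (min (x i k) L))) := by
  have hn' : (0 : ℝ) < n := by exact_mod_cast hn
  have hK0 : 0 < K := by rw [hK]; positivity
  set B : I → ℝ := fun i => (∑ k, min (x i k) L * (min (x i k) L - log (min (x i k) L))) / n
    with hBd
  set t : I → ℝ := fun i => (∑ k, max (x i k - L) 0) / n with htd
  set u : I → ℝ := fun i => (∑ k, (x i k - 1)) / 2 with hud
  set H : I → ℝ := fun i => (B i - K * t i) / 2 with hH
  set EH : ℝ := (Bb - K * tb) / 2 with hEH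
  have hB' : Bb = ∑ i, w i * B i := hB
  have ht' : tb = ∑ i, w i * t i := ht
  have hu' : ub = ∑ i, w i * u i := hu
  have hy0 : ∀ i k, 0 ≤ min (x i k) L := fun i k => le_min (hx i k) (by linarith)
  have hB0 : ∀ i, 0 ≤ B i := fun i =>
    div_nonneg (Finset.sum_nonneg (fun k _ => f_nonneg (hy0 i k))) hn'.le
  have hB1 : ∀ i, B i ≤ L ^ 2 + 1 := by
    intro i
    show (∑ k, min (x i k) L * (min (x i k) L - log (min (x i k) L))) / (n : ℝ) ≤ _
    rw [div_le_iff₀ hn']
    calc ∑ k, min (x i k) L * (min (x i k) L - log (min (x i k) L))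
        ≤ ∑ _k : Fin n, (L ^ 2 + 1) :=
          Finset.sum_le_sum (fun k _ => f_le (hy0 i k) (min_le_right _ _))
      _ = (L ^ 2 + 1) * n := by
          rw [Finset.sum_const, Finset.card_univ, Fintype.card_fin, nsmul_eq_mul]; ring
  have ht0 : ∀ i, 0 ≤ t i := fun i =>
    div_nonneg (Finset.sum_nonneg (fun k _ => le_max_right _ _)) hn'.le
  have htb0 : 0 ≤ tb := by
    rw [ht']; exact Finset.sum_nonneg (fun i _ => mul_nonneg (hw i) (ht0 i))
  have hBb0 : 0 ≤ Bb := by
    rw [hB']; exact Finset.sum_nonneg (fun i _ => mul_nonneg (hw i) (hB0 i))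
  have hBb1 : Bb ≤ L ^ 2 + 1 := by
    rw [hB']
    calc ∑ i, w i * B i ≤ ∑ i, w i * (L ^ 2 + 1) :=
          Finset.sum_le_sum (fun i _ => mul_le_mul_of_nonneg_left (hB1 i) (hw i))
      _ = L ^ 2 + 1 := by rw [← Finset.sum_mul, hs, one_mul]
  have hEHs : EH = ∑ i, w i * H i := by
    rw [hEH, hB', ht', Finset.mul_sum, ← Finset.sum_sub_distrib, Finset.sum_div]
    apply Finset.sum_congr rfl
    intro i _
    rw [hH]; ring
  -- the bound of the mean of `|H - EH|`
  have hv : ∑ i, w i * |H i - EH| ≤ L ^ 2 + 1 + K * tb := by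
    have h1 : ∀ i, |H i - EH| ≤ (B i + K * t i) / 2 + (Bb + K * tb) / 2 := by
      intro i
      have a1 := mul_nonneg hK0.le (ht0 i)
      have a2 := mul_nonneg hK0.le htb0
      have a3 := hB0 i
      rw [abs_le]
      constructor
      · show -_ ≤ (B i - K * t i) / 2 - (Bb - K * tb) / 2
        linarith
      · show (B i - K * t i) / 2 - (Bb - K * tb) / 2 ≤ _
        linarith
    calc ∑ i, w i * |H i - EH|
        ≤ ∑ i, w i * ((B i + K * t i) / 2 + (Bb + K * tb) / 2) :=
          Finset.sum_le_sum (fun i _ => mul_le_mul_of_nonneg_left (h1 i) (hw i))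
      _ = ((∑ i, w i * B i) + K * (∑ i, w i * t i)) / 2
            + (∑ i, w i) * ((Bb + K * tb) / 2) := by
          rw [Finset.mul_sum, ← Finset.sum_add_distrib, Finset.sum_div, Finset.sum_mul,
            ← Finset.sum_add_distrib]
          apply Finset.sum_congr rfl
          intro i _
          ring
      _ = Bb + K * tb := by rw [← hB', ← ht', hs]; ring
      _ ≤ L ^ 2 + 1 + K * tb := by linarith
  have hkap0 : 0 ≤ K / n := by positivity
  -- the pointwise bound
  have hpt : ∀ i, sqrt n * exp (-(n / 2)) * (exp EH *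
      (1 - u i + (H i - EH) - sqrt (K / n) - 4 * (K / n) * |H i - EH|))
      ≤ exp (-(∑ k, x i k) / 2) * sqrt (∑ k, exp (min (x i k) L)) := by
    intro i
    have hp := point hn (x i) (hx i) L hL
    rw [← hK] at hp
    have hE : 0 < ∑ k, exp (min (x i k) L) := by
      apply Finset.sum_pos (fun k _ => exp_pos _)
      exact ⟨⟨0, hn⟩, Finset.mem_univ _⟩
    have hq : 0 < (∑ k, exp (min (x i k) L)) / n := div_pos hE hn'
    have e1 : sqrt (∑ k, exp (min (x i k) L))
        = sqrt n * exp (log ((∑ k, exp (min (x i k) L)) / n) / 2) := by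
      generalize (∑ k, exp (min (x i k) L)) = A at hE hq ⊢
      rw [exp_half, exp_log hq, ← sqrt_mul hn'.le]
      congr 1
      field_simp
    have e2 : exp (-(∑ k, x i k) / 2) = exp (-(n / 2)) * exp (-u i) := by
      rw [← exp_add]
      congr 1
      show _ = -((n : ℝ) / 2) + -((∑ k, (x i k - 1)) / 2)
      rw [Finset.sum_sub_distrib]
      simp only [Finset.sum_const, Finset.card_univ, Fintype.card_fin, nsmul_eq_mul, mul_one]
      ring
    have e3 : (∑ k, (x i k - 1)) / (n : ℝ) = 2 / n * u i := by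
      show _ = 2 / (n : ℝ) * ((∑ k, (x i k - 1)) / 2)
      field_simp
    have e4 : |(∑ k, (x i k - 1)) / (n : ℝ)| = 2 / n * |u i| := by
      rw [e3, abs_mul, abs_of_pos (by positivity)]
    have h1 : -(K / n * |u i|) + H i ≤ log ((∑ k, exp (min (x i k) L)) / n) / 2 := by
      rw [e4] at hp
      have e5 : K / n * |u i| = K * (2 / n * |u i|) / 2 := by ring
      rw [e5]
      show -(K * (2 / n * |u i|) / 2) + (B i - K * t i) / 2 ≤ _
      have e6 : B i = (∑ k, min (x i k) L * (min (x i k) L - log (min (x i k) L))) / n := rfl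
      have e7 : t i = (∑ k, max (x i k - L) 0) / n := rfl
      rw [e6, e7]
      linarith
    have h2 := Pool.Agent.Helper72.SH.scal (u i) (H i - EH) (K / n) hkap0 hKn
    have h3 : exp EH * (1 - u i + (H i - EH) - sqrt (K / n) - 4 * (K / n) * |H i - EH|)
        ≤ exp (-u i) * exp (log ((∑ k, exp (min (x i k) L)) / n) / 2) := by
      calc exp EH * (1 - u i + (H i - EH) - sqrt (K / n) - 4 * (K / n) * |H i - EH|)
          ≤ exp EH * exp (-u i - K / n * |u i| + (H i - EH)) :=
            mul_le_mul_of_nonneg_left h2 (exp_pos _).le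
        _ = exp (-u i + (-(K / n * |u i|) + H i)) := by
            rw [← exp_add]; congr 1; ring
        _ ≤ exp (-u i + log ((∑ k, exp (min (x i k) L)) / n) / 2) := by
            apply exp_le_exp.2; linarith
        _ = _ := exp_add _ _
    rw [e1, e2]
    calc sqrt n * exp (-(n / 2)) * (exp EH *
          (1 - u i + (H i - EH) - sqrt (K / n) - 4 * (K / n) * |H i - EH|))
        ≤ sqrt n * exp (-(n / 2)) *
          (exp (-u i) * exp (log ((∑ k, exp (min (x i k) L)) / n) / 2)) :=
          mul_le_mul_of_nonneg_left h3 (by positivity)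
      _ = _ := by ring
  -- sum up
  have hsum : ∑ i, w i * (sqrt n * exp (-(n / 2)) * (exp EH *
      (1 - u i + (H i - EH) - sqrt (K / n) - 4 * (K / n) * |H i - EH|)))
      = sqrt n * exp (-(n / 2)) * (exp EH *
        (1 - ub - sqrt (K / n) - 4 * (K / n) * ∑ i, w i * |H i - EH|)) := by
    have e1 : ∑ i, w i * (1 - u i + (H i - EH) - sqrt (K / n) - 4 * (K / n) * |H i - EH|)
        = 1 - ub - sqrt (K / n) - 4 * (K / n) * ∑ i, w i * |H i - EH| := by
      have e2 : ∀ i, w i * (1 - u i + (H i - EH) - sqrt (K / n) - 4 * (K / n) * |H i - EH|)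
          = w i * (1 - EH - sqrt (K / n)) - w i * u i + w i * H i
            - 4 * (K / n) * (w i * |H i - EH|) := by
        intro i; ring
      rw [Finset.sum_congr rfl (fun i _ => e2 i), Finset.sum_sub_distrib,
        Finset.sum_add_distrib, Finset.sum_sub_distrib, ← Finset.sum_mul, hs, ← hu', ← hEHs,
        ← Finset.mul_sum]
      ring
    rw [← e1, Finset.mul_sum, Finset.mul_sum]
    apply Finset.sum_congr rfl
    intro i _
    ring
  calc sqrt n * exp (-(n / 2)) * (exp EH *
        (1 - ub - sqrt (K / n) - 4 * (K / n) * (L ^ 2 + 1 + K * tb)))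
      ≤ sqrt n * exp (-(n / 2)) * (exp EH *
        (1 - ub - sqrt (K / n) - 4 * (K / n) * ∑ i, w i * |H i - EH|)) := by
        apply mul_le_mul_of_nonneg_left _ (by positivity)
        apply mul_le_mul_of_nonneg_left _ (exp_pos _).le
        have := mul_le_mul_of_nonneg_left hv (show 0 ≤ 4 * (K / n) by positivity)
        linarith
    _ = ∑ i, w i * (sqrt n * exp (-(n / 2)) * (exp EH *
      (1 - u i + (H i - EH) - sqrt (K / n) - 4 * (K / n) * |H i - EH|))) := hsum.symm
    _ ≤ _ := Finset.sum_le_sum (fun i _ => mul_le_mul_of_nonneg_left (hpt i) (hw i))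

end Pool.Agent.Helper6.SH
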