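import Pool.Agent.Helper18.Sharp.Int
import Pool.Agent.Helper45.CR.Low

/-!
# Riemann sums of antitone functions over the grid
-/

set_option autoImplicit false

namespace Pool.Agent.Helper6.SH

open MeasureTheory Set Filter Topology Real Pool.Agent.Helper18.Sharp

variable {h : ℝ → ℝ}

theorem ii (hint : IntegrableOn h (Ioo 0 1)) : IntervalIntegrable h volume 0 1 := by
  rw [intervalIntegrable_iff_integrableOn_Ioo_of_le zero_le_one]
  exact hint

/-- upper Riemann bound -/
theorem riem_le (hint : IntegrableOn h (Ioo 0 1)) (hanti : AntitoneOn h (Ioc 0 1))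
    {N : ℕ} (hN : 1 ≤ N) :
    (∑ a ∈ Finset.range N, h (((a : ℝ) + 1) / N)) / N ≤ ∫ u in (0:ℝ)..1, h u := by
  have hN' : (0 : ℝ) < N := by exact_mod_cast hN
  have hsum : ∫ u in (0:ℝ)..1, h u =
      ∑ a ∈ Finset.range N, ∫ u in ((a : ℝ) / N)..(((a : ℝ) + 1) / N), h u := by
    have h := intervalIntegral.sum_integral_adjacent_intervals (f := h) (μ := volume)
      (a := fun k : ℕ => (k : ℝ) / N) (n := N) (fun k hk => by
        apply (ii hint).mono_set
        have e0 : (0 : ℝ) ≤ (k : ℝ) / N := by positivity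
        have e1 : ((k + 1 : ℕ) : ℝ) / N ≤ 1 := by
          rw [div_le_one hN']
          exact_mod_cast hk
        have e2 : (k : ℝ) / N ≤ ((k + 1 : ℕ) : ℝ) / N := by
          apply div_le_div_of_nonneg_right _ hN'.le
          push_cast
          linarith
        rw [uIcc_of_le e2, uIcc_of_le zero_le_one]
        exact Icc_subset_Icc e0 e1)
    simp only [Nat.cast_zero, zero_div, div_self hN'.ne'] at h
    rw [← h]
    apply Finset.sum_congr rfl
    intro a _
    push_cast
    rfl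
  rw [hsum, Finset.sum_div]
  apply Finset.sum_le_sum
  intro a ha
  have ha' := Finset.mem_range.mp ha
  have e1 : (((a : ℝ) + 1)) / N ≤ 1 := by
    rw [div_le_one hN']
    exact_mod_cast ha'
  have e2 : (a : ℝ) / N < ((a : ℝ) + 1) / N := by
    apply div_lt_div_of_pos_right _ hN'
    linarith
  have e0 : (0 : ℝ) ≤ (a : ℝ) / N := by positivity
  have hc : h (((a : ℝ) + 1) / N) / N =
      ∫ u in ((a : ℝ) / N)..(((a : ℝ) + 1) / N), h (((a : ℝ) + 1) / N) := by
    rw [intervalIntegral.integral_const, smul_eq_mul]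
    field_simp
    ring
  rw [hc]
  apply intervalIntegral.integral_mono_on_of_le_Ioo e2.le
  · exact intervalIntegrable_const
  · apply (ii hint).mono_set
    rw [uIcc_of_le e2.le, uIcc_of_le zero_le_one]
    exact Icc_subset_Icc e0 e1
  · intro u hu
    exact hanti ⟨lt_of_le_of_lt e0 hu.1, hu.2.le.trans e1⟩
      ⟨lt_of_le_of_lt e0 e2, e1⟩ hu.2.le

/-- lower Riemann bound -/
theorem riem_ge (hint : IntegrableOn h (Ioo 0 1)) (hanti : AntitoneOn h (Ioc 0 1))
    (h1 : h 1 = 0) {N : ℕ} (hN : 1 ≤ N) :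
    ∫ u in (1 / (N : ℝ))..1, h u ≤ (∑ a ∈ Finset.range N, h (((a : ℝ) + 1) / N)) / N := by
  have hN' : (0 : ℝ) < N := by exact_mod_cast hN
  obtain ⟨m, rfl⟩ : ∃ m, N = m + 1 := ⟨N - 1, by omega⟩
  rw [Finset.sum_range_succ]
  have hone : ((m : ℝ) + 1) / ((m + 1 : ℕ) : ℝ) = 1 := by
    push_cast
    exact div_self (by positivity)
  rw [hone, h1, add_zero]
  have hsum : ∫ u in (1 / ((m + 1 : ℕ) : ℝ))..1, h u =
      ∑ a ∈ Finset.range m, ∫ u in (((a : ℝ) + 1) / ((m + 1 : ℕ) : ℝ))..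
        (((a : ℝ) + 2) / ((m + 1 : ℕ) : ℝ)), h u := by
    have h := intervalIntegral.sum_integral_adjacent_intervals (f := h) (μ := volume)
      (a := fun k : ℕ => ((k : ℝ) + 1) / ((m + 1 : ℕ) : ℝ)) (n := m) (fun k hk => by
        apply (ii hint).mono_set
        have e0 : (0 : ℝ) ≤ ((k : ℝ) + 1) / ((m + 1 : ℕ) : ℝ) := by positivity
        have e1 : (((k + 1 : ℕ) : ℝ) + 1) / ((m + 1 : ℕ) : ℝ) ≤ 1 := by
          rw [div_le_one hN']
          exact_mod_cast Nat.succ_le_succ hk
        have e2 : ((k : ℝ) + 1) / ((m + 1 : ℕ) : ℝ) ≤ (((k + 1 : ℕ) : ℝ) + 1) / ((m + 1 : ℕ) : ℝ) := by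
          apply div_le_div_of_nonneg_right _ hN'.le
          push_cast
          linarith
        rw [uIcc_of_le e2, uIcc_of_le zero_le_one]
        exact Icc_subset_Icc e0 e1)
    simp only [Nat.cast_zero, zero_add] at h
    rw [hone] at h
    rw [← h]
    apply Finset.sum_congr rfl
    intro a _
    congr 2
    push_cast
    ring
  rw [hsum, Finset.sum_div]
  apply Finset.sum_le_sum
  intro a ha
  have ha' := Finset.mem_range.mp ha
  have e1 : ((a : ℝ) + 2) / ((m + 1 : ℕ) : ℝ) ≤ 1 := by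
    rw [div_le_one hN']
    have : (a : ℝ) + 1 ≤ m := by exact_mod_cast ha'
    push_cast
    linarith
  have e2 : ((a : ℝ) + 1) / ((m + 1 : ℕ) : ℝ) < ((a : ℝ) + 2) / ((m + 1 : ℕ) : ℝ) := by
    apply div_lt_div_of_pos_right _ hN'
    linarith
  have e0 : (0 : ℝ) < ((a : ℝ) + 1) / ((m + 1 : ℕ) : ℝ) := by positivity
  have hc : h (((a : ℝ) + 1) / ((m + 1 : ℕ) : ℝ)) / ((m + 1 : ℕ) : ℝ) =
      ∫ u in (((a : ℝ) + 1) / ((m + 1 : ℕ) : ℝ))..(((a : ℝ) + 2) / ((m + 1 : ℕ) : ℝ)),
        h (((a : ℝ) + 1) / ((m + 1 : ℕ) : ℝ)) := by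
    rw [intervalIntegral.integral_const, smul_eq_mul]
    field_simp
    ring
  rw [hc]
  apply intervalIntegral.integral_mono_on_of_le_Ioo e2.le
  · apply (ii hint).mono_set
    rw [uIcc_of_le e2.le, uIcc_of_le zero_le_one]
    exact Icc_subset_Icc e0.le e1
  · exact intervalIntegrable_const
  · intro u hu
    exact hanti ⟨e0, (e2.le).trans e1⟩ ⟨e0.trans hu.1, hu.2.le.trans e1⟩ hu.1.le

theorem tendsto_from (hint : IntegrableOn h (Ioo 0 1)) :
    Tendsto (fun t : ℝ => ∫ u in t..1, h u) (𝓝[Icc 0 1] 0) (𝓝 (∫ u in (0:ℝ)..1, h u)) := by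
  have h0 := intervalIntegral.continuousOn_primitive_interval_left (f := h) (a := 0) (b := 1)
    (μ := volume) (by
      rw [uIcc_of_le zero_le_one, integrableOn_Icc_iff_integrableOn_Ioo]
      exact hint)
  have h1 := h0 0 (by rw [uIcc_of_le zero_le_one]; exact ⟨le_rfl, zero_le_one⟩)
  rw [uIcc_of_le zero_le_one] at h1
  exact h1

theorem riem_tendsto (hint : IntegrableOn h (Ioo 0 1)) (hanti : AntitoneOn h (Ioc 0 1))
    (h1 : h 1 = 0) :
    Tendsto (fun N : ℕ => (∑ a ∈ Finset.range N, h (((a : ℝ) + 1) / N)) / N) atTop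
      (𝓝 (∫ u in (0:ℝ)..1, h u)) := by
  have h2 : Tendsto (fun N : ℕ => 1 / (N : ℝ)) atTop (𝓝[Icc 0 1] 0) := by
    apply tendsto_nhdsWithin_iff.mpr
    refine ⟨tendsto_one_div_atTop_nhds_zero_nat, ?_⟩
    filter_upwards [eventually_ge_atTop 1] with N hN
    have hN' : (1 : ℝ) ≤ N := by exact_mod_cast hN
    exact ⟨by positivity, by rw [div_le_one (by linarith)]; exact hN'⟩
  have h3 := (tendsto_from hint).comp h2
  refine tendsto_of_tendsto_of_tendsto_of_le_of_le' h3 tendsto_const_nhds ?_ ?_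
  · filter_upwards [eventually_ge_atTop 1] with N hN
    exact riem_ge hint hanti h1 hN
  · filter_upwards [eventually_ge_atTop 1] with N hN
    exact riem_le hint hanti hN

/-- Riemann sums along the grid `qv` -/
theorem grid_tendsto (g : ℝ → ℝ) (g0 : g 0 = 0) (hg : MonotoneOn g (Ici 0))
    (hi : IntegrableOn (fun y => g y * exp (-y)) (Ioi 0)) :
    Tendsto (fun N : ℕ => (∑ c ∈ Finset.range N,
        g (-Real.log (Pool.Agent.Helper45.CR.qv N c))) / N) atTop
      (𝓝 (∫ y in Ioi (0:ℝ), g y * exp (-y))) := by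
  set h : ℝ → ℝ := fun u => g (-Real.log u) with hh
  have hint : IntegrableOn h (Ioo 0 1) := by
    rw [← image_exp_neg, integrableOn_image_iff_integrableOn_abs_deriv_smul measurableSet_Ioi
      (fun x _ => (hasDeriv_exp_neg x).hasDerivWithinAt) injOn_exp_neg]
    refine hi.congr_fun ?_ measurableSet_Ioi
    intro y _
    simp only [hh, log_exp, neg_neg, smul_eq_mul, abs_neg, abs_exp]
    ring
  have hval : ∫ u in (0:ℝ)..1, h u = ∫ y in Ioi (0:ℝ), g y * exp (-y) := by
    rw [intervalIntegral.integral_of_le zero_le_one, integral_Ioc_eq_integral_Ioo,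
      ← image_exp_neg, integral_image_eq_integral_abs_deriv_smul measurableSet_Ioi
      (fun x _ => (hasDeriv_exp_neg x).hasDerivWithinAt) injOn_exp_neg]
    apply setIntegral_congr_fun measurableSet_Ioi
    intro y _
    simp only [hh, log_exp, neg_neg, smul_eq_mul, abs_neg, abs_exp]
    ring
  have hanti : AntitoneOn h (Ioc 0 1) := by
    intro u hu v hv huv
    apply hg
    · exact mem_Ici.mpr (by have := Real.log_nonpos hv.1.le hv.2; linarith)
    · exact mem_Ici.mpr (by have := Real.log_nonpos hu.1.le hu.2; linarith)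
    · have := Real.log_le_log hu.1 huv
      linarith
  have h1 : h 1 = 0 := by simp [hh, g0]
  have hT := riem_tendsto hint hanti h1
  rw [hval] at hT
  refine hT.congr' ?_
  filter_upwards [eventually_ge_atTop 1] with N hN
  congr 1
  obtain ⟨m, rfl⟩ : ∃ m, N = m + 1 := ⟨N - 1, by omega⟩
  have hone : ((m : ℝ) + 1) / ((m + 1 : ℕ) : ℝ) = 1 := by
    push_cast
    exact div_self (by positivity)
  rw [Finset.sum_range_succ, hone, h1, add_zero, Finset.sum_range_succ]
  have e1 : g (-Real.log (Pool.Agent.Helper45.CR.qv (m + 1) m)) = 0 := by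
    have : Pool.Agent.Helper45.CR.qv (m + 1) m = 0 := by
      unfold Pool.Agent.Helper45.CR.qv
      rw [hone]
      ring
    rw [this]
    simp [g0]
  rw [e1, add_zero, ← Finset.sum_range_reflect]
  apply Finset.sum_congr rfl
  intro a ha
  have ha' := Finset.mem_range.mp ha
  have e2 : Pool.Agent.Helper45.CR.qv (m + 1) a = (((m - 1 - a : ℕ) : ℝ) + 1) / ((m + 1 : ℕ) : ℝ) := by
    rw [Pool.Agent.Helper45.CR.qv_eq (by omega)]
    congr 1
    have : m + 1 - 1 - a = (m - 1 - a) + 1 := by omega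
    rw [this]
    push_cast
    ring
  rw [e2]

end Pool.Agent.Helper6.SH
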