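import Pool.Agent.Helper6.SH.First
import Pool.Agent.Helper6.SH.Riem
import Pool.Agent.Helper89.SH.Stmt

/-!
# The first moment on the grid: row L3
-/

set_option autoImplicit false

namespace Pool.Agent.Helper6.SH

open MeasureTheory Set Filter Topology Real Pool.Agent.Helper43.Copula Pool.Agent.Helper3.Cop
  Pool.Agent.Helper45.CR Pool.Agent.Helper89.SH

/-! ### the three test functions -/

noncomputable def g1 (L y : ℝ) : ℝ := min y L * (min y L - Real.log (min y L))

noncomputable def g2 (L y : ℝ) : ℝ := max (y - L) 0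

theorem g1_eq (L y : ℝ) : g1 L y = Pool.Agent.Helper18.Sharp.psi (min y L) := by
  unfold g1 Pool.Agent.Helper18.Sharp.psi
  ring

theorem g1_zero {L : ℝ} (hL : 1 ≤ L) : g1 L 0 = 0 := by
  unfold g1
  rw [min_eq_left (by linarith)]
  simp

theorem g2_zero {L : ℝ} (hL : 1 ≤ L) : g2 L 0 = 0 := by
  unfold g2
  rw [max_eq_right (by linarith)]

theorem g1_mono {L : ℝ} (hL : 1 ≤ L) : MonotoneOn (g1 L) (Ici 0) := by
  intro a ha b hb hab
  rw [g1_eq, g1_eq]
  apply Pool.Agent.Helper18.Sharp.psi_mono
  · exact mem_Ici.mpr (le_min (mem_Ici.mp ha) (by linarith))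
  · exact mem_Ici.mpr (le_min (mem_Ici.mp hb) (by linarith))
  · exact min_le_min_right _ hab

theorem g2_mono (L : ℝ) : MonotoneOn (g2 L) (Ici 0) := by
  intro a _ b _ hab
  unfold g2
  exact max_le_max (by linarith) le_rfl

theorem int_exp : IntegrableOn (fun y : ℝ => exp (-y)) (Ioi 0) := by
  have := integrableOn_exp_neg_Ioi 0
  simpa using this

theorem g1_meas (L : ℝ) : Measurable (g1 L) := by
  unfold g1
  have h : Measurable (fun y : ℝ => min y L) := measurable_id.min measurable_const
  exact h.mul (h.sub (Real.measurable_log.comp h))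

theorem g1_int {L : ℝ} (hL : 1 ≤ L) : IntegrableOn (fun y => g1 L y * exp (-y)) (Ioi 0) := by
  refine Integrable.mono' (int_exp.const_mul (L ^ 2 + 1)) ?_ ?_
  · exact ((g1_meas L).mul (measurable_exp.comp measurable_neg)).aestronglyMeasurable
  · rw [ae_restrict_iff' measurableSet_Ioi]
    refine ae_of_all _ ?_
    intro y hy
    have hy0 : 0 < y := hy
    have h1 : 0 ≤ min y L := le_min hy0.le (by linarith)
    have h2 : 0 ≤ g1 L y := f_nonneg h1
    have h3 : g1 L y ≤ L ^ 2 + 1 := f_le h1 (min_le_right _ _)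
    rw [norm_mul, norm_of_nonneg h2, norm_of_nonneg (exp_pos _).le]
    exact mul_le_mul_of_nonneg_right h3 (exp_pos _).le

theorem g2_int {L : ℝ} (hL : 1 ≤ L) : IntegrableOn (fun y => g2 L y * exp (-y)) (Ioi 0) := by
  refine Integrable.mono' Pool.Agent.Helper18.Sharp.integrable_id ?_ ?_
  · refine (Measurable.mul ?_ (measurable_exp.comp measurable_neg)).aestronglyMeasurable
    exact (measurable_id.sub_const L).max measurable_const
  · rw [ae_restrict_iff' measurableSet_Ioi]
    refine ae_of_all _ ?_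
    intro y hy
    have hy0 : 0 < y := hy
    have h2 : 0 ≤ g2 L y := le_max_right _ _
    have h3 : g2 L y ≤ y := by
      unfold g2
      exact max_le (by linarith) hy0.le
    rw [norm_mul, norm_of_nonneg h2, norm_of_nonneg (exp_pos _).le]
    exact mul_le_mul_of_nonneg_right h3 (exp_pos _).le

theorem tend_yexp (c : ℝ) : Tendsto (fun y : ℝ => -((y - c) * exp (-y))) atTop (𝓝 0) := by
  have h1 : Tendsto (fun y : ℝ => y * exp (-y)) atTop (𝓝 0) := by
    have := Real.tendsto_pow_mul_exp_neg_atTop_nhds_zero 1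
    simpa using this
  have h2 : Tendsto (fun y : ℝ => exp (-y)) atTop (𝓝 0) := Real.tendsto_exp_neg_atTop_nhds_zero
  have h3 := (h1.sub (h2.const_mul c)).neg
  simp only [mul_zero, sub_zero, neg_zero] at h3
  refine h3.congr (fun y => ?_)
  ring

theorem g2_val {L : ℝ} (hL : 1 ≤ L) : ∫ y in Ioi (0:ℝ), g2 L y * exp (-y) = exp (-L) := by
  have hsplit : Ioi (0:ℝ) = Ioc 0 L ∪ Ioi L := (Ioc_union_Ioi_eq_Ioi (by linarith)).symm
  have hi := g2_int hL
  rw [hsplit, setIntegral_union (Ioc_disjoint_Ioi le_rfl) measurableSet_Ioi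
    (hi.mono_set (fun y hy => hy.1))
    (hi.mono_set (fun y hy => mem_Ioi.mpr (by have := mem_Ioi.mp hy; linarith)))]
  have e1 : ∫ y in Ioc (0:ℝ) L, g2 L y * exp (-y) = 0 := by
    have : ∫ y in Ioc (0:ℝ) L, g2 L y * exp (-y) = ∫ y in Ioc (0:ℝ) L, (0:ℝ) := by
      apply setIntegral_congr_fun measurableSet_Ioc
      intro y hy
      have : g2 L y = 0 := by
        unfold g2
        exact max_eq_right (by linarith [hy.2])
      simp only [this, zero_mul]
    rw [this]; simp
  have e2 : ∫ y in Ioi L, g2 L y * exp (-y) = exp (-L) := by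
    have h1 : ∫ y in Ioi L, g2 L y * exp (-y) = ∫ y in Ioi L, (y - L) * exp (-y) := by
      apply setIntegral_congr_fun measurableSet_Ioi
      intro y hy
      have : g2 L y = y - L := by
        unfold g2
        exact max_eq_left (by linarith [mem_Ioi.mp hy])
      simp only [this]
    rw [h1]
    have hder : ∀ y ∈ Ici L, HasDerivAt (fun y : ℝ => -((y - (L - 1)) * exp (-y)))
        ((y - L) * exp (-y)) y := by
      intro y _
      have h2 : HasDerivAt (fun y : ℝ => y - (L - 1)) 1 y := (hasDerivAt_id y).sub_const _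
      have h3 := Pool.Agent.Helper18.Sharp.hasDeriv_exp_neg y
      have h5 : HasDerivAt (fun y : ℝ => -((y - (L - 1)) * exp (-y)))
          (-(1 * exp (-y) + (y - (L - 1)) * -exp (-y))) y := (h2.mul h3).neg
      have h6 : -(1 * exp (-y) + (y - (L - 1)) * -exp (-y)) = (y - L) * exp (-y) := by ring
      rw [← h6]
      exact h5
    have hint : IntegrableOn (fun y : ℝ => (y - L) * exp (-y)) (Ioi L) := by
      have h5 : IntegrableOn (fun y => g2 L y * exp (-y)) (Ioi L) :=
        hi.mono_set (fun y hy => mem_Ioi.mpr (by have := mem_Ioi.mp hy; linarith))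
      refine h5.congr_fun ?_ measurableSet_Ioi
      intro y hy
      have : g2 L y = y - L := by
        unfold g2
        exact max_eq_left (by linarith [mem_Ioi.mp hy])
      simp only [this]
    rw [integral_Ioi_of_hasDerivAt_of_tendsto' hder hint (tend_yexp (L - 1))]
    ring
  rw [e1, e2, zero_add]

/-! ### the reduction -/

/-- the expression of the first moment -/
noncomputable def FF (n : ℕ) (L b t u : ℝ) : ℝ :=
  sqrt n * exp (-(n / 2)) * (exp ((b - (2 * L ^ 2 + 4) * t) / 2) *
    (1 - u - sqrt ((2 * L ^ 2 + 4) / n) - 4 * ((2 * L ^ 2 + 4) / n) *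
      (L ^ 2 + 1 + (2 * L ^ 2 + 4) * t)))

theorem FF_cont (n : ℕ) (L : ℝ) :
    Continuous (fun p : ℝ × ℝ × ℝ => FF n L p.1 p.2.1 p.2.2) := by
  unfold FF
  fun_prop

theorem exp_min_eq {q L : ℝ} (hq : 0 < q) :
    exp (min (-Real.log q) L) = 1 / max q (exp (-L)) := by
  rcases le_total (exp (-L)) q with h | h
  · have h1 : -L ≤ Real.log q := (Real.le_log_iff_exp_le hq).2 h
    rw [max_eq_left h, min_eq_left (by linarith), exp_neg, exp_log hq, one_div]
  · have h1 : Real.log q ≤ -L := (Real.log_le_iff_le_exp hq).2 h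
    rw [max_eq_right h, min_eq_right (by linarith), exp_neg L, one_div, inv_inv]

theorem grid_le {n : ℕ} (hn : 1 ≤ n) {C : (Fin n → ℝ) → ℝ} (hC : IsCopula n C) {N : ℕ}
    (hN : 1 ≤ N) {L : ℝ} (hL : 1 ≤ L) (hKn : (2 * L ^ 2 + 4) / n ≤ 1 / 6) :
    FF n L ((∑ c ∈ Finset.range N, g1 L (-Real.log (qv N c))) / N)
        ((∑ c ∈ Finset.range N, g2 L (-Real.log (qv N c))) / N)
        (n * ((∑ c ∈ Finset.range N, (-Real.log (qv N c))) / N - 1) / 2)
      - (n : ℝ) / N * sqrt (n * exp L) ≤
      ∑ j ∈ good n N, mass C N j * sqrt (VV N j * aa (exp (-L)) N j) := by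
  classical
  have hn' : (0 : ℝ) < n := by exact_mod_cast hn
  have hN' : (0 : ℝ) < N := by exact_mod_cast hN
  set J := Fintype.piFinset (fun _ : Fin n => Finset.range N) with hJ
  have hjN : ∀ j ∈ J, ∀ k, j k < N := by
    intro j hj k
    rw [hJ, Fintype.mem_piFinset] at hj
    exact Finset.mem_range.mp (hj k)
  have hm0 : ∀ j ∈ J, 0 ≤ mass C N j := fun j hj => mass_nonneg hC hN (hjN j hj)
  have hx0 : ∀ j ∈ J, ∀ k, 0 ≤ -Real.log (qv N (j k)) := by
    intro j hj k
    have := Real.log_nonpos (qv_nonneg (hjN j hj k)) qv_le_one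
    linarith
  -- averages
  have hav : ∀ f : ℕ → ℝ, ∑ j ∈ J, mass C N j * ((∑ k, f (j k)) / n) =
      (∑ c ∈ Finset.range N, f c) / N := by
    intro f
    have e1 : ∀ j ∈ J, mass C N j * ((∑ k, f (j k)) / n) =
        (∑ k, mass C N j * f (j k)) / n := by
      intro j _
      rw [← Finset.mul_sum]; ring
    rw [Finset.sum_congr rfl e1, ← Finset.sum_div, Finset.sum_comm,
      Finset.sum_congr rfl fun k _ => sum_mass_fun hn hC hN k f]
    simp only [Finset.sum_const, Finset.card_univ, Fintype.card_fin, nsmul_eq_mul]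
    field_simp
  have hfirst := first (I := {j // j ∈ J}) (fun j => mass C N j.1) (fun j => hm0 j.1 j.2)
    (by
      rw [Finset.sum_coe_sort J (fun j => mass C N j)]
      exact sum_mass_total hn hC hN)
    n hn (fun j k => -Real.log (qv N (j.1 k))) (fun j k => hx0 j.1 j.2 k) L hL
    (2 * L ^ 2 + 4) rfl hKn
    ((∑ c ∈ Finset.range N, g1 L (-Real.log (qv N c))) / N)
    ((∑ c ∈ Finset.range N, g2 L (-Real.log (qv N c))) / N)
    (n * ((∑ c ∈ Finset.range N, (-Real.log (qv N c))) / N - 1) / 2)
    (by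
      rw [← hav (fun c => g1 L (-Real.log (qv N c)))]
      exact (Finset.sum_coe_sort J (fun j => mass C N j *
        ((∑ k, g1 L (-Real.log (qv N (j k)))) / n))).symm)
    (by
      rw [← hav (fun c => g2 L (-Real.log (qv N c)))]
      exact (Finset.sum_coe_sort J (fun j => mass C N j *
        ((∑ k, g2 L (-Real.log (qv N (j k)))) / n))).symm)
    (by
      rw [← hav (fun c => -Real.log (qv N c)),
        Finset.sum_coe_sort J (fun j => mass C N j *
          ((∑ k, (-Real.log (qv N (j k)) - 1)) / 2))]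
      have e1 : ∀ j ∈ J, mass C N j * ((∑ k, (-Real.log (qv N (j k)) - 1)) / 2) =
          (n : ℝ) / 2 * (mass C N j * ((∑ k, -Real.log (qv N (j k))) / n)) -
            (n : ℝ) / 2 * mass C N j := by
        intro j _
        rw [Finset.sum_sub_distrib]
        simp only [Finset.sum_const, Finset.card_univ, Fintype.card_fin, nsmul_eq_mul, mul_one]
        field_simp
      rw [Finset.sum_congr rfl e1, Finset.sum_sub_distrib, ← Finset.mul_sum, ← Finset.mul_sum,
        sum_mass_total hn hC hN]
      ring)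
  rw [Finset.sum_coe_sort J (fun j => mass C N j * (exp (-(∑ k, -Real.log (qv N (j k))) / 2) *
    sqrt (∑ k, exp (min (-Real.log (qv N (j k))) L))))] at hfirst
  -- the last cells
  set M : ℝ := sqrt (n * exp L) with hM
  have hM0 : 0 ≤ M := sqrt_nonneg _
  set f : ℕ → ℝ := fun c => if c + 1 < N then 0 else 1 with hf
  have hf0 : ∀ c, 0 ≤ f c := by
    intro c
    rw [hf]
    simp only
    split_ifs <;> norm_num
  have hpt : ∀ j ∈ J, mass C N j * (exp (-(∑ k, -Real.log (qv N (j k))) / 2) *
      sqrt (∑ k, exp (min (-Real.log (qv N (j k))) L))) ≤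
      mass C N j * (if (∀ k, j k + 1 < N) then sqrt (VV N j * aa (exp (-L)) N j) else 0) +
        M * n * (mass C N j * ((∑ k, f (j k)) / n)) := by
    intro j hj
    have hm := hm0 j hj
    have hs0 : 0 ≤ ∑ k, f (j k) := Finset.sum_nonneg (fun k _ => hf0 _)
    split_ifs with hg
    · have hq : ∀ k, 0 < qv N (j k) := fun k => qv_pos (hg k)
      have hP : 0 < ∏ k, qv N (j k) := Finset.prod_pos fun k _ => hq k
      have e1 : exp (-(∑ k, -Real.log (qv N (j k))) / 2) = sqrt (VV N j) := by
        unfold VV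
        rw [Finset.sum_neg_distrib, neg_neg, ← Real.log_prod (fun k _ => (hq k).ne'),
          exp_half, exp_log hP]
      have e2 : ∑ k, exp (min (-Real.log (qv N (j k))) L) = aa (exp (-L)) N j := by
        unfold aa
        exact Finset.sum_congr rfl (fun k _ => exp_min_eq (hq k))
      have e3 : 0 ≤ VV N j := hP.le
      rw [e1, e2, ← sqrt_mul e3]
      have : 0 ≤ M * n * (mass C N j * ((∑ k, f (j k)) / n)) := by positivity
      linarith
    · push Not at hg
      obtain ⟨k, hk⟩ := hg
      have h1 : 1 ≤ ∑ k, f (j k) := by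
        have h2 : f (j k) = 1 := by
          rw [hf]; simp only; rw [if_neg (by omega)]
        calc (1 : ℝ) = f (j k) := h2.symm
          _ ≤ ∑ k, f (j k) := Finset.single_le_sum (fun i _ => hf0 _) (Finset.mem_univ k)
      have h2 : exp (-(∑ k, -Real.log (qv N (j k))) / 2) ≤ 1 := by
        rw [exp_le_one_iff]
        have := Finset.sum_nonneg (fun k (_ : k ∈ (Finset.univ : Finset (Fin n))) => hx0 j hj k)
        linarith
      have h3 : sqrt (∑ k, exp (min (-Real.log (qv N (j k))) L)) ≤ M := by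
        rw [hM]
        apply sqrt_le_sqrt
        calc ∑ k, exp (min (-Real.log (qv N (j k))) L) ≤ ∑ _k : Fin n, exp L :=
              Finset.sum_le_sum (fun k _ => exp_le_exp.2 (min_le_right _ _))
          _ = n * exp L := by
              simp only [Finset.sum_const, Finset.card_univ, Fintype.card_fin, nsmul_eq_mul]
      have h4 : exp (-(∑ k, -Real.log (qv N (j k))) / 2) *
          sqrt (∑ k, exp (min (-Real.log (qv N (j k))) L)) ≤ 1 * M :=
        mul_le_mul h2 h3 (sqrt_nonneg _) zero_le_one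
      have h5 : M * n * (mass C N j * ((∑ k, f (j k)) / n)) =
          mass C N j * (M * ∑ k, f (j k)) := by
        field_simp
      rw [h5, mul_zero, zero_add]
      apply mul_le_mul_of_nonneg_left _ hm
      have h6 : M * 1 ≤ M * ∑ k, f (j k) := mul_le_mul_of_nonneg_left h1 hM0
      linarith
  have hsum := Finset.sum_le_sum hpt
  rw [Finset.sum_add_distrib, ← Finset.mul_sum, hav f] at hsum
  have hfs : ∑ c ∈ Finset.range N, f c = 1 := by
    obtain ⟨m, rfl⟩ : ∃ m, N = m + 1 := ⟨N - 1, by omega⟩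
    rw [Finset.sum_range_succ]
    have e1 : f m = 1 := by rw [hf]; simp
    have e2 : ∑ c ∈ Finset.range m, f c = 0 := by
      apply Finset.sum_eq_zero
      intro c hc
      have := Finset.mem_range.mp hc
      rw [hf]; simp only
      rw [if_pos (by omega)]
    rw [e1, e2, zero_add]
  rw [hfs] at hsum
  have hgood : ∑ j ∈ J, mass C N j *
      (if (∀ k, j k + 1 < N) then sqrt (VV N j * aa (exp (-L)) N j) else 0) =
      ∑ j ∈ good n N, mass C N j * sqrt (VV N j * aa (exp (-L)) N j) := by
    unfold good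
    rw [Finset.sum_filter]
    apply Finset.sum_congr rfl
    intro j _
    split_ifs <;> simp
  rw [hgood] at hsum
  have hjunk : M * n * (1 / N) = (n : ℝ) / N * M := by ring
  rw [hjunk] at hsum
  unfold FF
  have := hfirst.trans hsum
  linarith

/-- row L3 -/
theorem l3 : L3 := by
  intro L hL n hn hKn C hC d hd
  have hn' : (0 : ℝ) < n := by exact_mod_cast hn
  have t1 := grid_tendsto (g1 L) (g1_zero hL) (g1_mono hL) (g1_int hL)
  have t2 := grid_tendsto (g2 L) (g2_zero hL) (g2_mono L) (g2_int hL)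
  rw [g2_val hL] at t2
  have t3 := grid_tendsto (fun y => y) rfl (fun a _ b _ hab => hab)
    Pool.Agent.Helper18.Sharp.integrable_id
  rw [Pool.Agent.Helper18.Sharp.int_id] at t3
  have t4 : Tendsto (fun N : ℕ => (n : ℝ) *
      ((∑ c ∈ Finset.range N, (-Real.log (qv N c))) / N - 1) / 2) atTop (𝓝 0) := by
    have := ((t3.sub_const 1).const_mul (n : ℝ)).div_const 2
    simpa using this
  have t5 : Tendsto (fun N : ℕ => (n : ℝ) / N * sqrt (n * exp L)) atTop (𝓝 0) := by
    have h := (tendsto_const_div_atTop_nhds_zero_nat (n : ℝ)).mul_const (sqrt (n * exp L))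
    simpa using h
  have t6 := ((FF_cont n L).tendsto (_, _, _)).comp (t1.prodMk_nhds (t2.prodMk_nhds t4))
  have t7 := t6.sub t5
  simp only [Function.comp_def, sub_zero] at t7
  have h8 : FF n L (∫ y in Ioi (0:ℝ), g1 L y * exp (-y)) (exp (-L)) 0 - d <
      FF n L (∫ y in Ioi (0:ℝ), g1 L y * exp (-y)) (exp (-L)) 0 := by linarith
  have h9 := t7.eventually_const_lt h8
  filter_upwards [h9, eventually_ge_atTop 1] with N h10 hN
  have h11 := grid_le hn hC hN hL hKn
  have h12 : sqrt n * exp (-(n / 2)) *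
        (exp (((∫ y in Set.Ioi (0 : ℝ), min y L * (min y L - Real.log (min y L)) *
            exp (-y)) - (2 * L ^ 2 + 4) * exp (-L)) / 2) *
          (1 - sqrt ((2 * L ^ 2 + 4) / n) -
            4 * ((2 * L ^ 2 + 4) / n) * (L ^ 2 + 1 + (2 * L ^ 2 + 4) * exp (-L)))) =
      FF n L (∫ y in Ioi (0:ℝ), g1 L y * exp (-y)) (exp (-L)) 0 := by
    unfold FF g1
    rw [sub_zero]
  rw [h12]
  linarith

end Pool.Agent.Helper6.SH
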